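import Mathlib

/-!
# Mealy machines, extension of the alphabet, and a direct product with a cyclic group
-/

set_option autoImplicit false

namespace Pool.Agent.V8H67.Iso

open Equiv

/-- a Mealy machine -/
structure Mealy (S X : Type) where
  nx : S → X → S
  out : S → X → X

namespace Mealy

variable {S X Y : Type} (D : Mealy S X)

/-- the action of a state on words -/
def run (D : Mealy S X) : S → List X → List X
  | _, [] => []
  | s, x :: w => D.out s x :: D.run (D.nx s x) w

/-- the group generated by the states -/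
def grp : Subgroup (Perm (List X)) := Subgroup.closure {σ | ∃ s, ∀ w, σ w = D.run s w}

theorem grp_nil {σ : Perm (List X)} (h : σ ∈ D.grp) : σ [] = [] := by
  induction h using Subgroup.closure_induction with
  | mem σ h =>
    obtain ⟨s, hs⟩ := h
    rw [hs]; rfl
  | one => rfl
  | mul σ τ _ _ h1 h2 => rw [Perm.mul_apply, h2, h1]
  | inv σ _ h => rw [Perm.inv_eq_iff_eq, h]

/-- the longest beginning of a word with letters in `X`, and the rest -/
def pre : List (X ⊕ Y) → List X × List (X ⊕ Y)
  | [] => ([], [])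
  | .inl x :: w => (x :: (pre w).1, (pre w).2)
  | .inr y :: w => ([], .inr y :: w)

theorem pre_join (w : List (X ⊕ Y)) : (pre w).1.map Sum.inl ++ (pre w).2 = w := by
  induction w with
  | nil => rfl
  | cons x w ih =>
    cases x with
    | inl x => simp only [pre, List.map_cons, List.cons_append, ih]
    | inr y => rfl

theorem pre_append (u : List X) (w : List (X ⊕ Y)) :
    pre (u.map Sum.inl ++ (pre w).2) = (u, (pre w).2) := by
  induction u with
  | nil =>
    simp only [List.map_nil, List.nil_append]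
    induction w with
    | nil => rfl
    | cons x w ih =>
      cases x with
      | inl x => exact ih
      | inr y => rfl
  | cons x u ih => simp only [List.map_cons, List.cons_append, pre, ih]

/-- extension of a function on words to words over a larger alphabet -/
def exF (f : List X → List X) (w : List (X ⊕ Y)) : List (X ⊕ Y) :=
  (f (pre w).1).map Sum.inl ++ (pre w).2

theorem exF_exF (f g : List X → List X) (w : List (X ⊕ Y)) :
    exF f (exF g w) = exF (fun u => f (g u)) w := by
  unfold exF
  rw [pre_append]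

theorem exF_id (w : List (X ⊕ Y)) : exF (fun u : List X => u) w = w := pre_join w

variable (X Y) in
/-- extension of permutations of words to words over a larger alphabet -/
def ex : Perm (List X) →* Perm (List (X ⊕ Y)) where
  toFun σ := ⟨exF σ, exF σ.symm,
    fun w => by rw [exF_exF]; simp only [symm_apply_apply]; exact exF_id w,
    fun w => by rw [exF_exF]; simp only [apply_symm_apply]; exact exF_id w⟩
  map_one' := by
    ext1 w
    exact exF_id w
  map_mul' σ τ := by
    ext1 w
    exact (exF_exF σ τ w).symm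

theorem ex_apply (σ : Perm (List X)) (w : List (X ⊕ Y)) :
    ex X Y σ w = (σ (pre w).1).map Sum.inl ++ (pre w).2 := rfl

theorem ex_injective : Function.Injective (ex X Y) := by
  intro σ τ h
  ext1 u
  have h1 := congrArg (fun f : Perm (List (X ⊕ Y)) => f (u.map Sum.inl)) h
  simp only [ex_apply] at h1
  have h2 : pre (u.map (Sum.inl : X → X ⊕ Y)) = (u, []) := by
    have := pre_append (Y := Y) u []
    simpa [pre] using this
  rw [h2] at h1
  simp only [List.append_nil] at h1
  exact List.map_injective_iff.2 Sum.inl_injective h1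

theorem ex_inr {σ : Perm (List X)} (h : σ [] = []) (y : Y) (w : List (X ⊕ Y)) :
    ex X Y σ (.inr y :: w) = .inr y :: w := by
  rw [ex_apply]
  simp [pre, h]

theorem ex_nil {σ : Perm (List X)} (h : σ [] = []) : ex X Y σ [] = [] := by
  rw [ex_apply]
  simp [pre, h]

theorem ex_inl {σ : Perm (List X)} (h : σ [] = []) (x : X) (w : List (X ⊕ Y)) :
    ∃ x' w', ex X Y σ (.inl x :: w) = .inl x' :: w' := by
  rw [ex_apply]
  simp only [pre]
  rcases hx : σ (x :: (pre w).1) with _ | ⟨x', u⟩
  · have := σ.injective (hx.trans h.symm)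
    simp at this
  · exact ⟨x', _, rfl⟩

variable {p : ℕ}

/-- the function underlying `cyc` -/
def cycF (g : Fin (p + 1) → Perm (List (X ⊕ Fin (p + 1)))) :
    List (X ⊕ Fin (p + 1)) → List (X ⊕ Fin (p + 1))
  | [] => []
  | .inl x :: w => .inl x :: w
  | .inr j :: w => .inr (j + 1) :: g j w

/-- the inverse of `cycF` -/
def cycI (g : Fin (p + 1) → Perm (List (X ⊕ Fin (p + 1)))) :
    List (X ⊕ Fin (p + 1)) → List (X ⊕ Fin (p + 1))
  | [] => []
  | .inl x :: w => .inl x :: w
  | .inr j :: w => .inr (j - 1) :: (g (j - 1)).symm w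

/-- a cycle of the new letters, with the given sections -/
def cyc (g : Fin (p + 1) → Perm (List (X ⊕ Fin (p + 1)))) : Perm (List (X ⊕ Fin (p + 1))) where
  toFun := cycF g
  invFun := cycI g
  left_inv w := by
    rcases w with _ | ⟨x | j, w⟩
    · rfl
    · rfl
    · simp [cycF, cycI]
  right_inv w := by
    rcases w with _ | ⟨x | j, w⟩
    · rfl
    · rfl
    · simp [cycF, cycI]

variable (g : Fin (p + 1) → Perm (List (X ⊕ Fin (p + 1))))

theorem cyc_nil : cyc g [] = [] := rfl
theorem cyc_inl (x : X) (w : List (X ⊕ Fin (p + 1))) : cyc g (.inl x :: w) = .inl x :: w := rfl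
theorem cyc_inr (j : Fin (p + 1)) (w : List (X ⊕ Fin (p + 1))) :
    cyc g (.inr j :: w) = .inr (j + 1) :: g j w := rfl

theorem ex_comm_cyc {σ : Perm (List X)} (h : σ [] = []) :
    Commute (ex X (Fin (p + 1)) σ) (cyc g) := by
  ext1 w
  rw [Perm.mul_apply, Perm.mul_apply]
  rcases w with _ | ⟨x | j, w⟩
  · rw [cyc_nil, ex_nil h, cyc_nil]
  · rw [cyc_inl]
    obtain ⟨x', w', hx⟩ := ex_inl (Y := Fin (p + 1)) h x w
    rw [hx, cyc_inl]
  · rw [cyc_inr, ex_inr h, ex_inr h, cyc_inr]

/-- partial products of the sections -/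
def pr : ℕ → Perm (List (X ⊕ Fin (p + 1)))
  | 0 => 1
  | j + 1 => g (Fin.ofNat (p + 1) j) * pr j

theorem cyc_pow (j : ℕ) (w : List (X ⊕ Fin (p + 1))) :
    (cyc g ^ j) (.inr 0 :: w) = .inr (Fin.ofNat (p + 1) j) :: pr g j w := by
  induction j with
  | zero => rfl
  | succ j ih =>
    rw [pow_succ', Perm.mul_apply, ih, cyc_inr, pr, Perm.mul_apply]
    congr 2
    apply Fin.ext
    simp [Fin.val_add]

theorem cyc_pow_mul (k : ℕ) (w : List (X ⊕ Fin (p + 1))) :
    (cyc g ^ ((p + 1) * k)) (.inr 0 :: w) = .inr 0 :: (pr g (p + 1) ^ k) w := by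
  induction k generalizing w with
  | zero => rfl
  | succ k ih =>
    rw [mul_add, mul_one, pow_add, Perm.mul_apply, cyc_pow, pow_succ, Perm.mul_apply]
    have : Fin.ofNat (p + 1) (p + 1) = 0 := by
      apply Fin.ext
      simp
    rw [this, ih]

theorem cyc_pow_inl (k : ℕ) (x : X) (w : List (X ⊕ Fin (p + 1))) :
    (cyc g ^ k) (.inl x :: w) = .inl x :: w := by
  induction k with
  | zero => rfl
  | succ k ih => rw [pow_succ', Perm.mul_apply, ih, cyc_inl]

theorem cyc_pow_nil (k : ℕ) : (cyc g ^ k) [] = [] := by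
  induction k with
  | zero => rfl
  | succ k ih => rw [pow_succ', Perm.mul_apply, ih, cyc_nil]

theorem cyc_order : IsOfFinOrder (cyc g) ↔ IsOfFinOrder (pr g (p + 1)) := by
  rw [isOfFinOrder_iff_pow_eq_one, isOfFinOrder_iff_pow_eq_one]
  constructor
  · rintro ⟨K, hK, h⟩
    refine ⟨K, hK, ?_⟩
    ext1 w
    have h1 := cyc_pow_mul g K w
    rw [mul_comm, pow_mul, h, one_pow, Perm.one_apply] at h1
    rw [Perm.one_apply]
    exact (List.cons.inj h1).2.symm
  · rintro ⟨K, hK, h⟩
    refine ⟨(p + 1) * K, by positivity, ?_⟩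
    ext1 w
    rw [Perm.one_apply]
    rcases w with _ | ⟨x | j, w⟩
    · exact cyc_pow_nil g _
    · exact cyc_pow_inl g _ x w
    · have h1 := cyc_pow g (j : ℕ) ((pr g (j : ℕ)).symm w)
      rw [apply_symm_apply] at h1
      have h2 : Fin.ofNat (p + 1) (j : ℕ) = j := by
        apply Fin.ext
        simp
      rw [h2] at h1
      rw [← h1, ← Perm.mul_apply, ← pow_add, add_comm ((p + 1) * K), pow_add, Perm.mul_apply,
        cyc_pow_mul, h, Perm.one_apply]

variable {D}

/-- the machine with new letters, which are fixed by the old states, and a new state, which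
permutes the new letters cyclically -/
def ext (D : Mealy S X) (i0 : S) (ss : Fin (p + 1) → S) :
    Mealy (Option S) (X ⊕ Fin (p + 1)) where
  nx s x := match s, x with
    | some s, .inl x => some (D.nx s x)
    | some _, .inr _ => some i0
    | none, .inl _ => some i0
    | none, .inr j => some (ss j)
  out s x := match s, x with
    | some s, .inl x => .inl (D.out s x)
    | some _, .inr y => .inr y
    | none, .inl x => .inl x
    | none, .inr j => .inr (j + 1)

section

variable (i0 : S) (ss : Fin (p + 1) → S) (f : S → Perm (List X))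
  (hf : ∀ s w, f s w = D.run s w) (hi : ∀ w, D.run i0 w = w)

include hi in
theorem run_some (s : S) (w : List (X ⊕ Fin (p + 1))) :
    (D.ext i0 ss).run (some s) w = (D.run s (pre w).1).map Sum.inl ++ (pre w).2 := by
  induction w generalizing s with
  | nil => rfl
  | cons x w ih =>
    cases x with
    | inl x =>
      change (.inl (D.out s x) : X ⊕ Fin (p + 1)) :: (D.ext i0 ss).run (some (D.nx s x)) w = _
      rw [ih]
      rfl
    | inr y =>
      change (.inr y : X ⊕ Fin (p + 1)) :: (D.ext i0 ss).run (some i0) w = .inr y :: w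
      rw [ih, hi, pre_join]

include hi hf in
theorem run_some' (s : S) (w : List (X ⊕ Fin (p + 1))) :
    (D.ext i0 ss).run (some s) w = ex X (Fin (p + 1)) (f s) w := by
  rw [run_some i0 ss hi, ex_apply, hf]

include hi in
theorem run_i0 (w : List (X ⊕ Fin (p + 1))) : (D.ext i0 ss).run (some i0) w = w := by
  rw [run_some i0 ss hi, hi, pre_join]

include hi hf in
theorem run_none (w : List (X ⊕ Fin (p + 1))) :
    (D.ext i0 ss).run none w = cyc (fun j => ex X (Fin (p + 1)) (f (ss j))) w := by
  rcases w with _ | ⟨x | j, w⟩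
  · rfl
  · change (.inl x : X ⊕ Fin (p + 1)) :: (D.ext i0 ss).run (some i0) w = .inl x :: w
    rw [run_i0 i0 ss hi]
  · change (.inr (j + 1) : X ⊕ Fin (p + 1)) :: (D.ext i0 ss).run (some (ss j)) w =
      .inr (j + 1) :: ex X (Fin (p + 1)) (f (ss j)) w
    rw [run_some' i0 ss f hf hi]

include hi hf in
theorem ext_grp : (D.ext i0 ss).grp = D.grp.map (ex X (Fin (p + 1))) ⊔
    Subgroup.zpowers (cyc (fun j => ex X (Fin (p + 1)) (f (ss j)))) := by
  unfold grp
  rw [MonoidHom.map_closure, Subgroup.zpowers_eq_closure, ← Subgroup.closure_union]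
  congr 1
  ext σ
  simp only [Set.mem_ofPred_eq, Set.mem_union, Set.mem_image, Set.mem_singleton_iff]
  constructor
  · rintro ⟨_ | s, hs⟩
    · right
      ext1 w
      rw [hs, run_none i0 ss f hf hi]
    · left
      refine ⟨f s, ⟨s, hf s⟩, ?_⟩
      ext1 w
      rw [hs, run_some' i0 ss f hf hi]
  · rintro (⟨τ, ⟨s, hs⟩, rfl⟩ | rfl)
    · refine ⟨some s, fun w => ?_⟩
      rw [run_some i0 ss hi, ex_apply, hs]
    · exact ⟨none, fun w => (run_none i0 ss f hf hi w).symm⟩

include hi hf in
/-- the group of the extended machine is a direct product -/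
theorem ext_grp_equiv : Nonempty ((D.ext i0 ss).grp ≃*
    D.grp × Subgroup.zpowers (cyc (fun j => ex X (Fin (p + 1)) (f (ss j))))) := by
  set c := cyc (fun j => ex X (Fin (p + 1)) (f (ss j))) with hc
  let φ := MonoidHom.noncommCoprod ((ex X (Fin (p + 1))).comp D.grp.subtype)
    (Subgroup.zpowers c).subtype (by
      rintro ⟨σ, hσ⟩ ⟨τ, hτ⟩
      obtain ⟨k, rfl⟩ := Subgroup.mem_zpowers_iff.1 hτ
      exact (ex_comm_cyc _ (D.grp_nil hσ)).zpow_right k)
  have hinj : Function.Injective φ := by
    rw [MonoidHom.noncommCoprod_injective]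
    refine ⟨?_, Subtype.val_injective, ?_⟩
    · intro a b hab
      exact Subtype.ext (ex_injective hab)
    · rw [Subgroup.disjoint_def]
      rintro τ ⟨⟨σ, hσ⟩, rfl⟩ ⟨⟨τ', hτ⟩, h2⟩
      have hn := D.grp_nil hσ
      change τ' = ex X (Fin (p + 1)) σ at h2
      change ex X (Fin (p + 1)) σ = 1
      have h3 : (Subgroup.zpowers c).subtype ⟨τ', hτ⟩ = τ' := rfl
      ext1 w
      rw [Perm.one_apply]
      rcases w with _ | ⟨x | j, w⟩
      · exact ex_nil hn
      · rw [← h2]
        obtain ⟨k, hk⟩ := Subgroup.mem_zpowers_iff.1 hτ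
        rw [← hk]
        obtain ⟨k, rfl | rfl⟩ := k.eq_nat_or_neg
        · rw [zpow_natCast]
          exact cyc_pow_inl _ k x w
        · rw [zpow_neg, zpow_natCast, Perm.inv_eq_iff_eq]
          exact (cyc_pow_inl _ k x w).symm
      · exact ex_inr hn j w
  have hr : φ.range = (D.ext i0 ss).grp := by
    rw [ext_grp i0 ss f hf hi]
    refine (MonoidHom.noncommCoprod_range _ _ _).trans ?_
    rw [Subgroup.range_subtype, MonoidHom.range_comp, Subgroup.range_subtype]
  exact ⟨((MonoidHom.ofInjective hinj).trans (MulEquiv.subgroupCongr hr)).symm⟩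

/-- partial products of the sections in the small group -/
def prs (h : Fin (p + 1) → Perm (List X)) : ℕ → Perm (List X)
  | 0 => 1
  | j + 1 => h (Fin.ofNat (p + 1) j) * prs h j

theorem pr_ex (h : Fin (p + 1) → Perm (List X)) (j : ℕ) :
    pr (fun j => ex X (Fin (p + 1)) (h j)) j = ex X (Fin (p + 1)) (prs h j) := by
  induction j with
  | zero => exact (map_one _).symm
  | succ j ih => rw [pr, prs, ih, map_mul]

theorem order_iff (h : Fin (p + 1) → Perm (List X)) :
    IsOfFinOrder (cyc (fun j => ex X (Fin (p + 1)) (h j))) ↔ IsOfFinOrder (prs h (p + 1)) := by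
  rw [cyc_order, pr_ex]
  rw [isOfFinOrder_iff_pow_eq_one, isOfFinOrder_iff_pow_eq_one]
  simp only [← map_pow]
  constructor
  · rintro ⟨n, hn, h⟩
    exact ⟨n, hn, ex_injective (h.trans (map_one _).symm)⟩
  · rintro ⟨n, hn, h⟩
    exact ⟨n, hn, by rw [h, map_one]⟩

end

section transport

variable {S' X' : Type}

/-- machines over equivalent alphabets and sets of states -/
theorem grp_equiv (D : Mealy S X) (D' : Mealy S' X') (es : S ≃ S') (e : X ≃ X')
    (h1 : ∀ s x, D'.nx (es s) (e x) = es (D.nx s x))
    (h2 : ∀ s x, D'.out (es s) (e x) = e (D.out s x)) : Nonempty (D.grp ≃* D'.grp) := by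
  have hrun : ∀ s w, D'.run (es s) (w.map e) = (D.run s w).map e := by
    intro s w
    induction w generalizing s with
    | nil => rfl
    | cons x w ih =>
      change D'.out (es s) (e x) :: D'.run (D'.nx (es s) (e x)) (w.map e) = _
      rw [h1, h2, ih]
      rfl
  let E : List X ≃ List X' := Equiv.listEquivOfEquiv e
  have hE : ∀ w, E w = w.map e := fun w => rfl
  let Φ : Perm (List X) ≃* Perm (List X') := E.permCongrHom
  have hΦ : ∀ σ w, Φ σ (E w) = E (σ w) := by
    intro σ w
    change E (σ (E.symm (E w))) = _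
    rw [symm_apply_apply]
  have hm : D.grp.map Φ.toMonoidHom = D'.grp := by
    unfold grp
    rw [MonoidHom.map_closure]
    congr 1
    ext τ
    simp only [Set.mem_image, Set.mem_ofPred_eq]
    constructor
    · rintro ⟨σ, ⟨s, hs⟩, rfl⟩
      refine ⟨es s, fun w => ?_⟩
      obtain ⟨w, rfl⟩ := E.surjective w
      change Φ σ (E w) = _
      rw [hΦ, hs, hE, hE, hrun]
    · rintro ⟨s, hs⟩
      obtain ⟨s, rfl⟩ := es.surjective s
      refine ⟨Φ.symm τ, ⟨s, fun w => ?_⟩, Φ.apply_symm_apply τ⟩
      apply E.injective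
      rw [← hΦ, Φ.apply_symm_apply, hs, hE, hE, hrun]
  exact ⟨(Φ.subgroupMap D.grp).trans (MulEquiv.subgroupCongr hm)⟩

end transport

end Mealy

end Pool.Agent.V8H67.Iso
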