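import Mathlib
import Pool.Agent.Helper599.Core
import Pool.Agent.V8H67.Iso.Mealy

/-!
# The machine with the odometers, the involutions and a binary odometer
-/

set_option autoImplicit false

namespace Pool.Agent.V8H67.Iso

open Equiv Pool.Agent.Helper599.Core

/-- small integers -/
def cod (z : ℤ) : Fin 3 := if z = -1 then 0 else if z = 0 then 1 else 2

/-- value of the code of a small integer -/
def vl (i : Fin 3) : ℤ := (i : ℕ) - 1

theorem vl_cod (z : ℤ) (h1 : -1 ≤ z) (h2 : z ≤ 1) : vl (cod z) = z := by
  unfold vl cod
  obtain rfl | rfl | rfl : z = -1 ∨ z = 0 ∨ z = 1 := by omega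
  · simp
  · simp
  · simp

theorem vl_bd (i : Fin 3) : -1 ≤ vl i ∧ vl i ≤ 1 := by
  unfold vl
  have := i.2
  omega

/-- states -/
inductive St (Q : Type) : Type
  | T (v : Bool → Fin 3)
  | V
  | U (o : Option Q)
  | O

instance {Q : Type} [Finite Q] : Finite (St Q) := by
  let f : St Q → ((Bool → Fin 3) ⊕ Option Q) ⊕ (Unit ⊕ Unit) := fun a => match a with
    | .T v => .inl (.inl v)
    | .U o => .inl (.inr o)
    | .V => .inr (.inl ())
    | .O => .inr (.inr ())
  refine Finite.of_injective f ?_
  intro a b h
  cases a <;> cases b <;> simp_all [f]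

variable {Q : Type} (M : Sys Q Bool) (a b : M.X)

/-- the identity state -/
def sid : St Q := .T (fun _ => 1)

open Classical in
/-- transposition of two letters -/
noncomputable def sw {X : Type} (a b : X) : Perm X := swap a b

theorem sw_sw {X : Type} (a b x : X) : sw a b (sw a b x) = x := by
  classical exact swap_apply_self a b x
theorem sw_left {X : Type} (a b : X) : sw a b a = b := by classical exact swap_apply_left a b
theorem sw_right {X : Type} (a b : X) : sw a b b = a := by classical exact swap_apply_right a b

open Classical in
/-- the machine -/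
noncomputable def base : Mealy (St Q) M.X where
  nx s x := match s with
    | .T v => .T (fun j => cod (M.rho x.1 x.2.1 x.2.2.1 j * (((x.2.2.2 j : ℕ) + vl (v j)) / M.B)))
    | .V => if ∀ j, (x.2.2.2 j : ℕ) = 0 then
        (if (x.2.2.1 : ℕ) = 0 then .V else .T (fun j => cod (M.sig x.1 x.2.1 x.2.2.1 j))) else sid
    | .U none => sid
    | .U (some q') => if x.1 = q' ∧ x.2.2.2 = x.2.1 then
        (if (x.2.2.1 : ℕ) = M.l then .U (M.nxt x.1 x.2.1) else sid) else sid
    | .O => if x = b then .O else sid
  out s x := match s with
    | .T v => (x.1, x.2.1, x.2.2.1, fun j => M.red ((x.2.2.2 j : ℕ) + vl (v j)))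
    | .V => if ∀ j, (x.2.2.2 j : ℕ) = 0 then (x.1, x.2.1, M.neg x.2.2.1, x.2.2.2) else x
    | .U none => x
    | .U (some q') => if x.1 = q' ∧ x.2.2.2 = x.2.1 then (x.1, x.2.1, x.2.2.1.rev, x.2.2.2) else x
    | .O => sw a b x

theorem run_T (v : Bool → Fin 3) (w : List M.X) :
    (base M a b).run (.T v) w = M.T (fun j => vl (v j)) w := by
  induction w generalizing v with
  | nil => rfl
  | cons x w ih =>
    obtain ⟨q, r, c, i⟩ := x
    rw [Sys.T_cons]
    refine congrArg₂ List.cons rfl ?_
    refine (ih _).trans ?_
    congr 1
    funext j
    apply vl_cod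
    · have hB := M.hB
      have h1 := vl_bd (v j)
      have h2 := (i j).2
      have h3 : -1 ≤ ((((i j : ℕ) : ℤ) + vl (v j)) / M.B) := by
        rw [Int.le_ediv_iff_mul_le (by omega)]
        omega
      simp only [Sys.rho]
      split_ifs <;> omega
    · have hB := M.hB
      have h1 := vl_bd (v j)
      have h2 := (i j).2
      have h3 : ((((i j : ℕ) : ℤ) + vl (v j)) / M.B) ≤ 1 := by
        have : ((((i j : ℕ) : ℤ) + vl (v j)) / M.B) < 2 := by
          rw [Int.ediv_lt_iff_lt_mul (by omega)]
          omega
        omega
      simp only [Sys.rho]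
      split_ifs <;> omega

theorem run_sid (w : List M.X) : (base M a b).run sid w = w := by
  unfold sid
  rw [run_T]
  have : (fun _ : Bool => vl 1) = 0 := by
    funext j
    simp [vl]
  rw [this, Sys.T_zero]

theorem run_V (w : List M.X) : (base M a b).run .V w = M.V w := by
  induction w with
  | nil => rfl
  | cons x w ih =>
    obtain ⟨q, r, c, i⟩ := x
    change (base M a b).out .V (q, r, c, i) :: (base M a b).run ((base M a b).nx .V (q, r, c, i)) w
      = M.V ((q, r, c, i) :: w)
    simp only [base, Sys.V]
    by_cases hi : ∀ j, (i j : ℕ) = 0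
    · simp only [if_pos hi]
      congr 1
      by_cases hc : (c : ℕ) = 0
      · simp only [hc, if_true]
        exact ih
      · simp only [hc, if_false]
        refine (run_T M a b _ w).trans ?_
        congr 1
        funext j
        apply vl_cod
        · simp only [Sys.sig, Sys.s]
          split_ifs <;> omega
        · simp only [Sys.sig, Sys.s]
          split_ifs <;> omega
    · simp only [if_neg hi]
      congr 1
      exact run_sid M a b w

theorem run_U (o : Option Q) (w : List M.X) : (base M a b).run (.U o) w = M.U o w := by
  induction w generalizing o with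
  | nil => cases o <;> rfl
  | cons x w ih =>
    cases o with
    | none =>
      refine congrArg₂ List.cons rfl ?_
      exact run_sid M a b w
    | some q' =>
      obtain ⟨q, r, c, i⟩ := x
      change (base M a b).out (.U (some q')) (q, r, c, i) ::
        (base M a b).run ((base M a b).nx (.U (some q')) (q, r, c, i)) w
        = M.U (some q') ((q, r, c, i) :: w)
      simp only [base, Sys.U]
      by_cases hi : q = q' ∧ i = r
      · simp only [if_pos hi]
        congr 1
        by_cases hc : (c : ℕ) = M.l
        · simp only [hc, if_true]
          exact ih _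
        · simp only [hc, if_false]
          exact run_sid M a b w
      · simp only [if_neg hi]
        congr 1
        exact run_sid M a b w

/-- the binary odometer on the letters `a`, `b` -/
noncomputable def odo : List M.X → List M.X := (base M a b).run .O

open Classical in
/-- the inverse of the binary odometer -/
noncomputable def odi : List M.X → List M.X
  | [] => []
  | x :: w => sw a b x :: (if x = a then odi w else w)

theorem odo_b (w : List M.X) : odo M a b (b :: w) = sw a b b :: odo M a b w := by
  change (base M a b).out .O b :: (base M a b).run ((base M a b).nx .O b) w = _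
  simp only [base, if_true]
  rfl

theorem odo_ne {x : M.X} (h : x ≠ b) (w : List M.X) : odo M a b (x :: w) = sw a b x :: w := by
  change (base M a b).out .O x :: (base M a b).run ((base M a b).nx .O x) w = _
  simp only [base, if_neg h]
  congr 1
  exact run_sid M a b w

theorem odi_a (w : List M.X) : odi M a b (a :: w) = sw a b a :: odi M a b w := by
  simp [odi]

theorem odi_ne {x : M.X} (h : x ≠ a) (w : List M.X) : odi M a b (x :: w) = sw a b x :: w := by
  simp [odi, h]

theorem odi_odo (w : List M.X) : odi M a b (odo M a b w) = w := by
  induction w with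
  | nil => rfl
  | cons x w ih =>
    by_cases h : x = b
    · subst h
      rw [odo_b, sw_right, odi_a, ih, sw_left]
    · have h1 : sw a b x ≠ a := by
        intro h2
        exact h ((sw a b).injective (h2.trans (sw_right a b).symm))
      rw [odo_ne M a b h, odi_ne M a b h1, sw_sw]

theorem odo_odi (w : List M.X) : odo M a b (odi M a b w) = w := by
  induction w with
  | nil => rfl
  | cons x w ih =>
    by_cases h : x = a
    · subst h
      rw [odi_a, sw_left, odo_b, ih, sw_right]
    · have h1 : sw a b x ≠ b := by
        intro h2
        exact h ((sw a b).injective (h2.trans (sw_left a b).symm))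
      rw [odi_ne M a b h, odo_ne M a b h1, sw_sw]

/-- the binary odometer as a permutation -/
noncomputable def OP : Perm (List M.X) := ⟨odo M a b, odi M a b, odi_odo M a b, odo_odi M a b⟩

theorem OP_sq (hab : a ≠ b) (w : List M.X) : (OP M a b ^ 2) (a :: w) = a :: OP M a b w := by
  rw [sq, Perm.mul_apply]
  change odo M a b (odo M a b (a :: w)) = a :: odo M a b w
  rw [odo_ne M a b hab, sw_left, odo_b, sw_right]

theorem OP_pow (hab : a ≠ b) (k : ℕ) (w : List M.X) :
    (OP M a b ^ (2 * k)) (a :: w) = a :: (OP M a b ^ k) w := by
  induction k generalizing w with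
  | zero => rfl
  | succ k ih =>
    rw [mul_add, mul_one, pow_add, Perm.mul_apply, OP_sq M a b hab, ih, pow_succ, Perm.mul_apply]

theorem OP_infinite (hab : a ≠ b) : ¬ IsOfFinOrder (OP M a b) := by
  rw [isOfFinOrder_iff_pow_eq_one]
  rintro ⟨n, hn, h⟩
  induction n using Nat.strong_induction_on with
  | _ n ih =>
    obtain ⟨k, rfl | rfl⟩ := n.even_or_odd'
    · refine ih k (by omega) (by omega) ?_
      ext1 w
      have h1 := OP_pow M a b hab k w
      rw [h] at h1
      exact (List.cons.inj h1).2.symm
    · have h1 := OP_pow M a b hab k []
      have h2 : (OP M a b ^ (2 * k + 1)) [a] = [a] := by rw [h]; rfl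
      rw [pow_succ', Perm.mul_apply, h1] at h2
      change odo M a b (a :: _) = _ at h2
      rw [odo_ne M a b hab, sw_left] at h2
      exact hab (List.cons.inj h2).1.symm

/-- the permutations of the states -/
noncomputable def fp : St Q → Perm (List M.X)
  | .T v => M.TP (fun j => vl (v j))
  | .V => M.VP
  | .U o => M.UP o
  | .O => OP M a b

theorem fp_run (s : St Q) (w : List M.X) : fp M a b s w = (base M a b).run s w := by
  cases s with
  | T v => rw [run_T]; rfl
  | V => rw [run_V]; rfl
  | U o => rw [run_U]; rfl
  | O => rfl

/-- the state of the odometer of the first counter -/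
def sT (σ : Fin 3) : St Q := .T (fun j => if j then σ else 1)

/-- the sections for the starting number `N` -/
def secs (q0 : Q) (N : ℕ) : List (St Q) :=
  List.replicate N (sT 2) ++ (.U (some q0) :: (List.replicate N (sT 0) ++ [.V]))

end Pool.Agent.V8H67.Iso
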