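import Mathlib

/-!
# Direct products of a finitely generated group with cyclic groups
-/

set_option autoImplicit false

namespace Pool.Agent.V8H67.Iso

open Subgroup

/-- an element of infinite order generates an infinite cyclic group -/
theorem zpowers_equiv_int {G : Type*} [Group G] (c : G) (h : ¬ IsOfFinOrder c) :
    Nonempty (Multiplicative ℤ ≃* zpowers c) := by
  have hinj : Function.Injective (zpowersHom G c) := by
    intro a b hab
    simp only [zpowersHom_apply] at hab
    exact Multiplicative.toAdd.injective (injective_zpow_iff_not_isOfFinOrder.2 h hab)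
  have hr : (zpowersHom G c).range = zpowers c := by
    ext g
    simp only [MonoidHom.mem_range, mem_zpowers_iff, zpowersHom_apply]
    exact ⟨fun ⟨n, hn⟩ => ⟨Multiplicative.toAdd n, hn⟩, fun ⟨n, hn⟩ => ⟨Multiplicative.ofAdd n, hn⟩⟩
  exact ⟨(MonoidHom.ofInjective hinj).trans (MulEquiv.subgroupCongr hr)⟩

theorem prod_equiv_of_infinite {G G' H : Type*} [Group G] [Group G'] [Group H] (c : G) (c' : G')
    (h : ¬ IsOfFinOrder c) (h' : ¬ IsOfFinOrder c') :
    Nonempty (H × zpowers c ≃* H × zpowers c') := by
  obtain ⟨e⟩ := zpowers_equiv_int c h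
  obtain ⟨e'⟩ := zpowers_equiv_int c' h'
  exact ⟨MulEquiv.prodCongr (MulEquiv.refl H) (e.symm.trans e')⟩

theorem finite_hom {H K : Type*} [Group H] [Group K] [Finite K] (hH : Group.FG H) :
    Finite (H →* K) := by
  obtain ⟨S, hS⟩ := hH.out
  refine Finite.of_injective (fun φ : H →* K => fun s : S => φ s) ?_
  intro φ ψ h
  refine MonoidHom.eq_of_eqOn_dense hS ?_
  intro s hs
  exact congrFun h ⟨s, hs⟩

/-- homomorphisms from a direct product to a commutative group -/
def coprodE (M N P : Type*) [Group M] [Group N] [CommGroup P] :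
    (M →* P) × (N →* P) ≃ (M × N →* P) where
  toFun f := f.1.coprod f.2
  invFun f := (f.comp (MonoidHom.inl M N), f.comp (MonoidHom.inr M N))
  left_inv f := by simp
  right_inv f := by simp

theorem not_prod_equiv {G G' H : Type*} [Group G] [Group G'] [Group H] (hH : Group.FG H) (c : G)
    (c' : G') (h : IsOfFinOrder c) (h' : ¬ IsOfFinOrder c') :
    ¬ Nonempty (H × zpowers c ≃* H × zpowers c') := by
  rintro ⟨e⟩
  obtain ⟨e'⟩ := zpowers_equiv_int c' h'
  obtain ⟨p, hp1, hp2⟩ := Nat.exists_infinite_primes (orderOf c + 1)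
  have : Fact p.Prime := ⟨hp2⟩
  let K := Multiplicative (ZMod p)
  have hfin : Finite (H →* K) := finite_hom hH
  have hpos : 0 < Nat.card (H →* K) := Nat.card_pos
  -- homomorphisms from the finite cyclic group
  have h1 : Nat.card (zpowers c →* K) = 1 := by
    rw [Nat.card_eq_one_iff_unique]
    refine ⟨⟨fun φ ψ => ?_⟩, ⟨1⟩⟩
    have key : ∀ φ : zpowers c →* K, φ = 1 := by
      intro φ
      ext x
      have hx : x ^ orderOf c = 1 := by
        obtain ⟨y, hy⟩ := x
        obtain ⟨k, rfl⟩ := mem_zpowers_iff.1 hy
        apply Subtype.ext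
        simp only [SubgroupClass.coe_pow, OneMemClass.coe_one]
        rw [← zpow_natCast, ← zpow_mul, mul_comm, zpow_mul, zpow_natCast, pow_orderOf_eq_one,
          one_zpow]
      have h2 : (φ x) ^ orderOf c = 1 := by rw [← map_pow, hx, map_one]
      have h3 : (φ x) ^ p = 1 := by
        have h4 : Nat.card K = p := by
          change Nat.card (ZMod p) = p
          rw [Nat.card_zmod]
        have h5 := pow_card_eq_one' (G := K) (x := φ x)
        rwa [h4] at h5
      have hc : Nat.Coprime (orderOf c) p := by
        rw [Nat.coprime_comm, hp2.coprime_iff_not_dvd]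
        intro hd
        have := Nat.le_of_dvd h.orderOf_pos hd
        omega
      have h4 : orderOf (φ x) ∣ 1 := by
        rw [← hc]
        exact Nat.dvd_gcd (orderOf_dvd_of_pow_eq_one h2) (orderOf_dvd_of_pow_eq_one h3)
      have h5 : φ x = 1 := by
        rw [Nat.dvd_one, orderOf_eq_one_iff] at h4
        exact h4
      rw [h5]; rfl
    rw [key φ, key ψ]
  have h2 : Nat.card (zpowers c' →* K) = p := by
    have e1 : (zpowers c' →* K) ≃ (Multiplicative ℤ →* K) :=
      { toFun := fun φ => φ.comp e'.toMonoidHom
        invFun := fun φ => φ.comp e'.symm.toMonoidHom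
        left_inv := fun φ => by ext x; simp
        right_inv := fun φ => by ext; simp }
    rw [Nat.card_congr (e1.trans (zpowersHom K).symm)]
    change Nat.card (ZMod p) = p
    rw [Nat.card_zmod]
  have e2 : (H × zpowers c →* K) ≃ (H × zpowers c' →* K) :=
    { toFun := fun φ => φ.comp e.symm.toMonoidHom
      invFun := fun φ => φ.comp e.toMonoidHom
      left_inv := fun φ => by ext x <;> simp
      right_inv := fun φ => by ext x <;> simp }
  have h3 := Nat.card_congr ((coprodE H (zpowers c) K).trans
    (e2.trans (coprodE H (zpowers c') K).symm))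
  rw [Nat.card_prod, Nat.card_prod, h1, h2] at h3
  have := hp2.two_le
  nlinarith

end Pool.Agent.V8H67.Iso
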