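import Mathlib

/-!
# Finite invertible automata, the groups they generate, and their codes
-/

set_option autoImplicit false

namespace Pool.Agent.V8H67.Iso

/-- A finite invertible automaton with states `0, …, m - 1` over the alphabet `0, …, n - 1`,
`n ≥ 2`: the transition map `next` and the output map `out`; the output map of every state is a
permutation of the alphabet. -/
structure Automaton where
  m : ℕ
  n : ℕ
  two_le : 2 ≤ n
  next : Fin m → Fin n → Fin m
  out : Fin m → Fin n → Fin n
  bij : ∀ s, Function.Bijective (out s)

namespace Automaton

/-- The action of a state on words: `s (x w) = out s x ++ (next s x) (w)`. -/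
def act (A : Automaton) : Fin A.m → List (Fin A.n) → List (Fin A.n)
  | _, [] => []
  | s, x :: w => A.out s x :: A.act (A.next s x) w

/-- The self-similar group `G(A)`: the group of permutations of the set of words (the vertices of
the tree) generated by the actions of the states of `A`. -/
def group (A : Automaton) : Subgroup (Equiv.Perm (List (Fin A.n))) :=
  Subgroup.closure {σ | ∃ s : Fin A.m, ∀ w, σ w = A.act s w}

/-- The code of an automaton: the number of states, the number of letters, and the table of
the pairs `(next s x, out s x)`, row by row. -/
def code (A : Automaton) : ℕ × ℕ × List (List (ℕ × ℕ)) :=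
  (A.m, A.n, List.ofFn fun s => List.ofFn fun x => ((A.next s x : ℕ), (A.out s x : ℕ)))

end Automaton

end Pool.Agent.V8H67.Iso
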