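import Mathlib
import Pool.Agent.V8H67.Iso.Defs
import Pool.Agent.V8H67.Iso.Base
import Pool.Agent.V8H67.Iso.Cancel
import Pool.Agent.Helper599.Source

/-!
# The automata of the reduction
-/

set_option autoImplicit false

namespace Pool.Agent.V8H67.Iso

open Equiv Pool.Agent.Helper599.Core

namespace Automaton

/-- the Mealy machine of an automaton -/
def mealy (A : Automaton) : Mealy (Fin A.m) (Fin A.n) := ⟨A.next, A.out⟩

theorem act_eq (A : Automaton) (s : Fin A.m) (w : List (Fin A.n)) : A.act s w = A.mealy.run s w := by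
  induction w generalizing s with
  | nil => rfl
  | cons x w ih =>
    change A.out s x :: A.act (A.next s x) w = A.out s x :: A.mealy.run (A.next s x) w
    rw [ih]

theorem group_eq (A : Automaton) : A.group = A.mealy.grp := by
  unfold group Mealy.grp
  congr 1
  ext σ
  simp only [Set.mem_ofPred_eq, act_eq]

end Automaton

variable {Q : Type} [Finite Q] (M : Sys Q Bool) (a b : M.X) (hab : a ≠ b)

/-- number of old states -/
noncomputable def n0 (Q : Type) [Finite Q] : ℕ := Nat.card (St Q)

/-- number of old letters -/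
noncomputable def k0 : ℕ := Nat.card M.X

/-- numbering of the old states -/
noncomputable def fS : St Q ≃ Fin (n0 Q) := Finite.equivFin _

/-- numbering of the old letters -/
noncomputable def fX : M.X ≃ Fin (k0 M) := Finite.equivFin _

include hab in
theorem two_le_k0 : 2 ≤ k0 M := by
  have : Nontrivial M.X := ⟨a, b, hab⟩
  exact Finite.one_lt_card

/-- numbering of the states -/
noncomputable def eS : Option (St Q) ≃ Fin (n0 Q + 1) :=
  (optionCongr fS).trans finSuccEquivLast.symm

theorem eS_some (s : St Q) : eS (some s) = (fS s).castSucc := by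
  simp [eS]

theorem eS_none : eS (none : Option (St Q)) = Fin.last _ := by
  simp [eS]

/-- numbering of the letters -/
noncomputable def eX (p : ℕ) : M.X ⊕ Fin (p + 1) ≃ Fin (k0 M + (p + 1)) :=
  (sumCongr (fX M) (Equiv.refl _)).trans finSumFinEquiv

theorem eX_inl (p : ℕ) (x : M.X) : eX M p (.inl x) = Fin.castAdd (p + 1) (fX M x) := by
  simp [eX]

theorem eX_inr (p : ℕ) (j : Fin (p + 1)) : eX M p (.inr j) = Fin.natAdd (k0 M) j := by
  simp [eX]

section

variable {p : ℕ} (ss : Fin (p + 1) → St Q)

/-- the extended machine -/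
noncomputable def DD : Mealy (Option (St Q)) (M.X ⊕ Fin (p + 1)) := (base M a b).ext sid ss

theorem DD_perm (s : Option (St Q)) : ∃ σ : Perm (List (M.X ⊕ Fin (p + 1))),
    ∀ w, σ w = (DD M a b ss).run s w := by
  cases s with
  | none => exact ⟨_, fun w => (Mealy.run_none sid ss (fp M a b) (fp_run M a b) (run_sid M a b) w).symm⟩
  | some s => exact ⟨_, fun w => (Mealy.run_some' sid ss (fp M a b) (fp_run M a b) (run_sid M a b) s w).symm⟩

theorem DD_out_inj (s : Option (St Q)) : Function.Injective ((DD M a b ss).out s) := by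
  intro x y h
  obtain ⟨σ, hσ⟩ := DD_perm M a b ss s
  have h1 : σ [x] = σ [y] := by
    rw [hσ, hσ]
    change [(DD M a b ss).out s x] = [(DD M a b ss).out s y]
    rw [h]
  exact (List.cons.inj (σ.injective h1)).1

/-- the automaton -/
noncomputable def aut : Automaton where
  m := n0 Q + 1
  n := k0 M + (p + 1)
  two_le := (two_le_k0 M a b hab).trans (Nat.le_add_right _ _)
  next s x := eS ((DD M a b ss).nx (eS.symm s) ((eX M p).symm x))
  out s x := eX M p ((DD M a b ss).out (eS.symm s) ((eX M p).symm x))
  bij s := by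
    rw [← Finite.injective_iff_bijective]
    intro x y h
    exact (eX M p).symm.injective (DD_out_inj M a b ss _ ((eX M p).injective h))

/-- the group of the automaton -/
theorem aut_group : Nonempty ((aut M a b hab ss).group ≃* (base M a b).grp ×
    Subgroup.zpowers (Mealy.cyc (fun j => Mealy.ex M.X (Fin (p + 1)) (fp M a b (ss j))))) := by
  obtain ⟨E1⟩ := Mealy.ext_grp_equiv (D := base M a b) sid ss (fp M a b) (fp_run M a b)
    (run_sid M a b)
  obtain ⟨E2⟩ := Mealy.grp_equiv (DD M a b ss) (aut M a b hab ss).mealy eS (eX M p)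
    (fun s x => by
      change eS ((DD M a b ss).nx (eS.symm (eS s)) ((eX M p).symm (eX M p x))) = _
      rw [symm_apply_apply, symm_apply_apply]
      rfl)
    (fun s x => by
      change eX M p ((DD M a b ss).out (eS.symm (eS s)) ((eX M p).symm (eX M p x))) = _
      rw [symm_apply_apply, symm_apply_apply]
      rfl)
  exact ⟨(MulEquiv.subgroupCongr (Automaton.group_eq _)).trans (E2.symm.trans E1)⟩

/-- the rows of the old states -/
noncomputable def baseRows : List (List (ℕ × ℕ)) :=
  List.ofFn fun s : Fin (n0 Q) => List.ofFn fun x : Fin (k0 M) =>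
    ((fS ((base M a b).nx (fS.symm s) ((fX M).symm x)) : ℕ),
      (fX M ((base M a b).out (fS.symm s) ((fX M).symm x)) : ℕ))

theorem ofFn_split {α : Type} {m n : ℕ} (f : Fin (m + n) → α) :
    List.ofFn f = List.ofFn (fun i => f (Fin.castAdd n i)) ++
      List.ofFn (fun i => f (Fin.natAdd m i)) := by
  rw [← List.ofFn_fin_append, Fin.append_castAdd_natAdd]

theorem ofFn_range {α : Type} {n : ℕ} (g : ℕ → α) :
    List.ofFn (fun i : Fin n => g i) = (List.range n).map g := by
  apply List.ext_getElem
  · simp
  · intro i h1 h2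
    simp

theorem code_eq (c : ℕ → ℕ) (hc : ∀ j : Fin (p + 1), c j = (fS (ss j) : ℕ)) :
    (aut M a b hab ss).code = (n0 Q + 1, k0 M + (p + 1),
      (baseRows M a b).map (fun row => row ++ (List.range (p + 1)).map
        (fun j => ((fS (sid : St Q) : ℕ), k0 M + j))) ++
      [(List.range (k0 M)).map (fun x => ((fS (sid : St Q) : ℕ), x)) ++
        (List.range (p + 1)).map (fun j => (c j, if j = p then k0 M else k0 M + (j + 1)))]) := by
  unfold Automaton.code
  refine Prod.ext rfl (Prod.ext rfl ?_)
  change (List.ofFn fun s : Fin (n0 Q + 1) => List.ofFn fun x : Fin (k0 M + (p + 1)) =>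
    ((eS ((DD M a b ss).nx (eS.symm s) ((eX M p).symm x)) : ℕ),
      (eX M p ((DD M a b ss).out (eS.symm s) ((eX M p).symm x)) : ℕ))) = _
  rw [List.ofFn_succ', List.concat_eq_append]
  congr 1
  · unfold baseRows
    rw [List.map_ofFn]
    congr 1
    funext s
    rw [Function.comp_apply, ofFn_split, ← ofFn_range (n := p + 1)]
    obtain ⟨s, rfl⟩ := fS.surjective s
    rw [← eS_some, symm_apply_apply]
    congr 1
    · congr 1
      funext x
      obtain ⟨x, rfl⟩ := (fX M).surjective x
      rw [← eX_inl, symm_apply_apply, symm_apply_apply, symm_apply_apply]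
      change ((eS (some ((base M a b).nx s x)) : ℕ),
        (eX M p (.inl ((base M a b).out s x)) : ℕ)) = _
      rw [eS_some, eX_inl]
      rfl
    · congr 1
      funext j
      rw [← eX_inr, symm_apply_apply]
      change ((eS (some (sid : St Q)) : ℕ), (eX M p (.inr j) : ℕ)) = _
      rw [eS_some, eX_inr]
      rfl
  · congr 1
    rw [ofFn_split, ← ofFn_range (n := p + 1), ← ofFn_range (n := k0 M), ← eS_none,
      symm_apply_apply]
    congr 1
    · congr 1
      funext x
      obtain ⟨x, rfl⟩ := (fX M).surjective x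
      rw [← eX_inl, symm_apply_apply]
      change ((eS (some (sid : St Q)) : ℕ), (eX M p (.inl x) : ℕ)) = _
      rw [eS_some, eX_inl]
      rfl
    · congr 1
      funext j
      rw [← eX_inr, symm_apply_apply]
      change ((eS (some (ss j)) : ℕ), (eX M p (.inr (j + 1)) : ℕ)) = _
      rw [eS_some, eX_inr, hc]
      refine Prod.ext rfl ?_
      change k0 M + ((j + 1 : Fin (p + 1)) : ℕ) = _
      split_ifs with h
      · have : j = Fin.last p := Fin.ext h
        subst this
        simp
      · rw [Fin.val_add_one_of_lt]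
        exact lt_of_le_of_ne (Fin.le_last j) (fun h2 => h (by rw [h2]; rfl))

end

end Pool.Agent.V8H67.Iso
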