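import Mathlib
import Pool.Agent.V8H67.Iso.Aut
import Pool.Agent.V8H67.Iso.Source3

/-!
# The isomorphism problem for automaton groups is undecidable
-/

set_option autoImplicit false

namespace Pool.Agent.V8H67.Iso

open Equiv Pool.Agent.Helper599.Core Pool.Agent.Helper599.Source

variable {Q : Type} [Finite Q] (M : Sys Q Bool) (q0 : Q) (a b : M.X) (hab : a ≠ b)

/-- the `j`-th section for the starting number `N` -/
def sec (N j : ℕ) : St Q :=
  if j < N then sT 2 else if j = N then .U (some q0) else if j < 2 * N + 1 then sT 0 else .V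

/-- the sections of the new state -/
def ssN (N : ℕ) : Fin (2 * N + 1 + 1) → St Q := fun j => sec q0 N j

/-- unit vector -/
def e1 : Bool → ℤ := fun j => if j then 1 else 0

theorem fp_sT2 : fp M a b (sT 2) = M.TP e1 := by
  change M.TP _ = _
  congr 1
  funext j
  cases j <;> simp [e1, vl]

theorem fp_sT0 : fp M a b (sT 0) = M.TP (-e1) := by
  change M.TP _ = _
  congr 1
  funext j
  cases j <;> simp [e1, vl]

omit [Finite Q] in
theorem TP_nsmul (v : Bool → ℤ) (k : ℕ) : M.TP (k • v) = M.TP v ^ k := by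
  induction k with
  | zero => rw [zero_smul, pow_zero, M.TP_zero]
  | succ k ih => rw [succ_nsmul, M.TP_add, ih, pow_succ]

theorem prs_a (N k : ℕ) (hk : k ≤ N) :
    Mealy.prs (fun j => fp M a b (ssN q0 N j)) k = M.TP e1 ^ k := by
  induction k with
  | zero => rfl
  | succ k ih =>
    rw [Mealy.prs, ih (by omega), pow_succ']
    congr 1
    have h : ssN q0 N (Fin.ofNat (2 * N + 1 + 1) k) = sT 2 := by
      unfold ssN sec
      rw [Fin.val_ofNat, Nat.mod_eq_of_lt (by omega), if_pos (by omega)]
    rw [h, fp_sT2]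

theorem prs_b (N : ℕ) : Mealy.prs (fun j => fp M a b (ssN q0 N j)) (N + 1) =
    M.UP (some q0) * M.TP e1 ^ N := by
  rw [Mealy.prs, prs_a M q0 a b N N le_rfl]
  congr 1
  have h : ssN q0 N (Fin.ofNat (2 * N + 1 + 1) N) = .U (some q0) := by
    unfold ssN sec
    rw [Fin.val_ofNat, Nat.mod_eq_of_lt (by omega), if_neg (by omega), if_pos rfl]
  rw [h]; rfl

theorem prs_c (N k : ℕ) (hk : k ≤ N) :
    Mealy.prs (fun j => fp M a b (ssN q0 N j)) (N + 1 + k) =
    M.TP (-e1) ^ k * (M.UP (some q0) * M.TP e1 ^ N) := by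
  induction k with
  | zero => rw [add_zero, prs_b, pow_zero, one_mul]
  | succ k ih =>
    rw [← add_assoc, Mealy.prs, ih (by omega), pow_succ', mul_assoc]
    congr 1
    have h : ssN q0 N (Fin.ofNat (2 * N + 1 + 1) (N + 1 + k)) = sT 0 := by
      unfold ssN sec
      rw [Fin.val_ofNat, Nat.mod_eq_of_lt (by omega), if_neg (by omega), if_neg (by omega),
        if_pos (by omega)]
    rw [h, fp_sT0]

theorem prs_d (N : ℕ) : Mealy.prs (fun j => fp M a b (ssN q0 N j)) (2 * N + 1 + 1) =
    M.W (some q0) (Sys.zz (ini N)) := by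
  rw [Mealy.prs]
  have h1 : 2 * N + 1 = N + 1 + N := by ring
  have h2 := prs_c M q0 a b N N le_rfl
  rw [← h1] at h2
  rw [h2]
  have h : ssN q0 N (Fin.ofNat (2 * N + 1 + 1) (2 * N + 1)) = .V := by
    unfold ssN sec
    rw [Fin.val_ofNat, Nat.mod_eq_of_lt (by omega), if_neg (by omega), if_neg (by omega),
      if_neg (by omega)]
  rw [h]
  change M.VP * _ = M.VP * M.A _ _
  congr 1
  unfold Sys.A
  have e : Sys.zz (ini N) = N • e1 := by
    funext j
    cases j <;> simp [Sys.zz, ini, e1]
  rw [e, TP_nsmul, Sys.TP_neg, inv_pow, mul_assoc]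

/-- order of the new state -/
theorem order_new (hl : 0 < M.l) (N : ℕ) :
    IsOfFinOrder (Mealy.cyc (fun j => Mealy.ex M.X (Fin (2 * N + 1 + 1))
      (fp M a b (ssN q0 N j)))) ↔ M.Halts (some q0) (ini N) := by
  rw [Mealy.order_iff, prs_d]
  rw [isOfFinOrder_iff_pow_eq_one]
  constructor
  · rintro ⟨m, hm, h⟩
    exact M.halts_of_finite hl m _ _ hm h
  · intro h
    exact M.finite_of_halts h

/-- the automaton of the number `N` -/
noncomputable def AN (N : ℕ) : Automaton := aut M a b hab (ssN q0 N)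

/-- the fixed automaton -/
noncomputable def BN : Automaton := aut M a b hab (p := 0) (fun _ => St.O)

include hab in
theorem order_fixed :
    ¬ IsOfFinOrder (Mealy.cyc (fun _ => Mealy.ex M.X (Fin (0 + 1)) (fp M a b St.O))) := by
  rw [Mealy.order_iff]
  change ¬ IsOfFinOrder (fp M a b St.O * 1)
  rw [mul_one]
  exact OP_infinite M a b hab

theorem fg_base : Group.FG (base M a b).grp := by
  have h : (base M a b).grp.FG := by
    rw [Subgroup.fg_iff]
    refine ⟨_, rfl, ?_⟩
    refine (Set.finite_range (fp M a b)).subset ?_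
    rintro σ ⟨s, hs⟩
    refine ⟨s, ?_⟩
    ext1 w
    rw [fp_run, hs]
  exact (Group.fg_iff_subgroup_fg _).2 h

/-- The groups are isomorphic exactly when the machine does not stop. -/
theorem iso_iff (hl : 0 < M.l) (N : ℕ) :
    Nonempty ((AN M q0 a b hab N).group ≃* (BN M a b hab).group) ↔
      ¬ M.Halts (some q0) (ini N) := by
  obtain ⟨E1⟩ := aut_group M a b hab (ssN q0 N)
  obtain ⟨E2⟩ := aut_group M a b hab (p := 0) (fun _ => St.O)
  have h2 := order_fixed M a b hab
  rw [← order_new M q0 a b hl N]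
  constructor
  · rintro ⟨E⟩ h1
    exact not_prod_equiv (fg_base M a b) _ _ h1 h2 ⟨E1.symm.trans (E.trans E2)⟩
  · intro h1
    obtain ⟨E⟩ := prod_equiv_of_infinite (H := (base M a b).grp) _ _ h1 h2
    exact ⟨E1.trans (E.trans E2.symm)⟩

/-- numbers of the sections -/
noncomputable def cc (N j : ℕ) : ℕ :=
  if j < N then (fS (sT 2 : St Q) : ℕ) else if j = N then (fS (St.U (some q0)) : ℕ) else
    if j < 2 * N + 1 then (fS (sT 0 : St Q) : ℕ) else (fS (St.V : St Q) : ℕ)

theorem cc_eq (N : ℕ) (j : Fin (2 * N + 1 + 1)) : cc q0 N j = (fS (ssN q0 N j) : ℕ) := by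
  unfold cc ssN sec
  split_ifs <;> rfl

theorem code_computable : Computable (fun N => (AN M q0 a b hab N).code) := by
  have h : ∀ N, (AN M q0 a b hab N).code = (n0 Q + 1, k0 M + (2 * N + 1 + 1),
      (baseRows M a b).map (fun row => row ++ (List.range (2 * N + 1 + 1)).map
        (fun j => ((fS (sid : St Q) : ℕ), k0 M + j))) ++
      [(List.range (k0 M)).map (fun x => ((fS (sid : St Q) : ℕ), x)) ++
        (List.range (2 * N + 1 + 1)).map
          (fun j => (cc q0 N j, if j = 2 * N + 1 then k0 M else k0 M + (j + 1)))]) :=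
    fun N => code_eq M a b hab (ssN q0 N) (cc q0 N) (cc_eq q0 N)
  have hp : Primrec (fun N : ℕ => 2 * N + 1) :=
    Primrec.succ.comp (Primrec.nat_mul.comp (Primrec.const 2) Primrec.id)
  have hr : Primrec (fun N : ℕ => List.range (2 * N + 1 + 1)) :=
    Primrec.list_range.comp (Primrec.succ.comp hp)
  have hcc : Primrec₂ (cc q0) := by
    unfold cc
    refine Primrec.ite (PrimrecRel.comp Primrec.nat_lt Primrec.snd Primrec.fst)
      (Primrec.const _) ?_
    refine Primrec.ite (PrimrecRel.comp Primrec.eq Primrec.snd Primrec.fst)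
      (Primrec.const _) ?_
    exact Primrec.ite (PrimrecRel.comp Primrec.nat_lt Primrec.snd (hp.comp Primrec.fst))
      (Primrec.const _) (Primrec.const _)
  have hrow : Primrec₂ (fun (N : ℕ) (row : List (ℕ × ℕ)) =>
      row ++ (List.range (2 * N + 1 + 1)).map (fun j => ((fS (sid : St Q) : ℕ), k0 M + j))) := by
    refine Primrec.list_append.comp Primrec.snd ?_
    refine Primrec.list_map (hr.comp Primrec.fst) ?_
    exact (Primrec.pair (Primrec.const _)
      (Primrec.nat_add.comp (Primrec.const _) Primrec.snd)).to₂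
  refine Primrec.to_comp ?_
  refine (Primrec.pair (Primrec.const (n0 Q + 1)) (Primrec.pair
    (Primrec.nat_add.comp (Primrec.const (k0 M)) (Primrec.succ.comp hp))
    (Primrec.list_append.comp
      (Primrec.list_map (Primrec.const (baseRows M a b)) hrow)
      (Primrec.list_cons.comp (Primrec.list_append.comp (Primrec.const _)
        (Primrec.list_map hr (Primrec₂.pair.comp₂ hcc ?_))) (Primrec.const []))))).of_eq
    (fun N => (h N).symm)
  refine Primrec.ite (PrimrecRel.comp Primrec.eq Primrec.snd (hp.comp Primrec.fst))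
    (Primrec.const _) ?_
  exact Primrec.nat_add.comp (Primrec.const _) (Primrec.succ.comp Primrec.snd)

/-- The main theorem: there is an automaton `B` such that no recursively enumerable set of codes
consists, among the codes of automata, of those of the automata whose group is isomorphic to
the group of `B`. -/
theorem main : ∃ B : Automaton, ∀ P : ℕ × ℕ × List (List (ℕ × ℕ)) → Prop, REPred P →
    ¬ ∀ A : Automaton, P A.code ↔ Nonempty (A.group ≃* B.group) := by
  obtain ⟨Q, hQ, M, q0, N, hl, hN, hh⟩ := exists_sys3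
  let z : Fin M.B := ⟨0, M.hB⟩
  let a : M.X := (q0, fun _ => z, ⟨0, by omega⟩, fun _ => z)
  let b : M.X := (q0, fun _ => z, ⟨1, by omega⟩, fun _ => z)
  have hab : a ≠ b := by
    intro h
    have h1 := congrArg (fun x : M.X => (x.2.2.1 : ℕ)) h
    simp [a, b] at h1
  refine ⟨BN M a b hab, fun P hP h => ?_⟩
  have h1 : ∀ n, P (AN M q0 a b hab (N n)).code ↔ ¬ (u n).Dom := by
    intro n
    rw [h, iso_iff M q0 a b hab hl, hh]
  have h2 : REPred (fun n => ¬ (u n).Dom) := by
    have h3 : REPred (fun n => P (AN M q0 a b hab (N n)).code) :=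
      Partrec.comp hP ((code_computable M q0 a b hab).comp hN)
    refine h3.of_eq ?_
    intro n
    exact h1 n
  have h4 : REPred (fun n => (u n).Dom) := u_partrec.dom_re
  have h5 : ComputablePred (fun n => (u n).Dom) :=
    ComputablePred.computable_iff_re_compl_re'.2 ⟨h4, h2⟩
  exact u_not_computable h5

end Pool.Agent.V8H67.Iso
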